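import Mathlib
import Pool.Agent.TH813.ExpSys

/-!
# Few solutions of exponential systems in a rational space

The axiom (SEAC) asks for solutions `z` of systems of equations between `z` and `e^z` which are
generic; the systems `P_i(z) e^{z_i} = Q_i(z)`, `i = 1, …, n`, with polynomials `P_i`, `Q_i` in
`z = (z₁, …, zₙ)` are the basic ones, with Zariski dense sets of solutions in `ℂⁿ` (Brownawell and
Masser, for `P_i = 1`). By (SC) the solutions should be as independent as possible; for instance
the solutions of `e^z = g(z)`, `g` a nonconstant polynomial with algebraic coefficients, in a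
`ℚ`-space `V` as below should be linearly independent over `ℚ`, so there should be at most `dim V`
of them. The theorem gives an unconditional bound, for every `n`, every field of coefficients and
every `V`, even if the equations are only required up to algebraic factors.
-/

set_option autoImplicit false

open Module

namespace Pool.Agent.Results.MP_209724_lc.FewSolutions

open Pool.Agent.TH813 in
/-- **Main result.** Let `F` be a subfield of `ℂ`, and `V` a `ℚ`-space of complex numbers of finite
dimension `r` such that `e^u` is not algebraic over `F` for all nonzero `u` in `V`. Let `P_i`, `Q_i`,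
`i = 1, …, n`, be polynomials in `n` variables over `F` of total degrees at most `a` and `b`. Then
at most `binom((a + b + 1) n r, n r)` points `z` of `Vⁿ` with all `P_i(z)`, `Q_i(z)` different from
`0` are such that all numbers `P_i(z) e^{z_i} / Q_i(z)`, `i = 1, …, n`, are algebraic over `F` (for
instance equal to `1`). -/
theorem result (F : IntermediateField ℚ ℂ) (V : Submodule ℚ ℂ) (hfd : FiniteDimensional ℚ V)
    (hV : ∀ u ∈ V, u ≠ 0 → ¬ IsAlgebraic F (Complex.exp u)) (n a b : ℕ)
    (P Q : Fin n → MvPolynomial (Fin n) F) (hP : ∀ i, (P i).totalDegree ≤ a)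
    (hQ : ∀ i, (Q i).totalDegree ≤ b) :
    {z : Fin n → V | ∀ i, MvPolynomial.aeval (fun j => (z j : ℂ)) (P i) ≠ 0 ∧
      MvPolynomial.aeval (fun j => (z j : ℂ)) (Q i) ≠ 0 ∧
      IsAlgebraic F (MvPolynomial.aeval (fun j => (z j : ℂ)) (P i) * Complex.exp (z i) /
        MvPolynomial.aeval (fun j => (z j : ℂ)) (Q i))}.encard ≤
      (((a + b + 1) * (n * finrank ℚ V)).choose (n * finrank ℚ V) : ℕ) := by
  classical
  set N := ((a + b + 1) * (n * finrank ℚ V)).choose (n * finrank ℚ V) with hN
  set e := finBasis ℚ V with he
  have hlc : ∀ p : V, ZtFin.lc (fun i => (e i : ℂ)) (e.repr p) = (p : ℂ) := by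
    intro p
    rw [ZtFin.lc_apply]
    have h := congrArg Subtype.val (e.sum_repr p)
    rw [← h]
    push_cast
    rfl
  set φ : (Fin n → V) → (ExpSys.I n (finrank ℚ V) → ℚ) := fun z p => e.repr (z p.1) p.2 with hφ
  have hφi : Function.Injective φ := by
    intro z z' h
    funext j
    apply e.repr.injective
    ext l
    exact congrFun h (j, l)
  have hmu : ∀ (z : Fin n → V) (j : Fin n), ExpSys.mu (fun i => (e i : ℂ)) j (φ z) = (z j : ℂ) :=
    fun z j => hlc (z j)
  have hev : ∀ (z : Fin n → V) (R : MvPolynomial (Fin n) F),
      DQ.ev (ExpSys.mu (fun i => (e i : ℂ))) R (φ z) =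
        MvPolynomial.aeval (fun j => (z j : ℂ)) R := by
    intro z R
    unfold DQ.ev
    congr 1
    congr 1
    funext j
    exact hmu z j
  by_contra hcon
  rw [not_le] at hcon
  obtain ⟨t, hts, ht⟩ := Set.exists_subset_encard_eq (Order.add_one_le_of_lt hcon)
  have hfin : t.Finite := by
    rw [← Set.encard_lt_top_iff, ht]
    exact_mod_cast ENat.natCast_lt_top (N + 1)
  have hcard : hfin.toFinset.card = N + 1 := by
    rw [hfin.encard_eq_coe_toFinset_card] at ht
    exact_mod_cast ht
  have key := ExpSys.main (F := F) (n := n) (fun i => (e i : ℂ)) (by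
    intro c hc
    have h4 := hlc (e.equivFun.symm c)
    have h5 : (e.repr (e.equivFun.symm c) : Fin (finrank ℚ V) → ℚ) = c :=
      e.equivFun.apply_symm_apply c
    rw [h5] at h4
    rw [h4]
    refine hV _ (Subtype.mem _) (fun h0 => hc ?_)
    have h6 : e.equivFun.symm c = 0 := Subtype.ext h0
    exact (LinearEquiv.map_eq_zero_iff _).1 h6) P Q hP hQ (hfin.toFinset.image φ) (by
    intro x hx i
    obtain ⟨z, hz, rfl⟩ := Finset.mem_image.1 hx
    rw [hev, hev, hmu]
    exact hts (hfin.mem_toFinset.1 hz) i)
  rw [Finset.card_image_of_injective _ hφi, hcard] at key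
  omega

end Pool.Agent.Results.MP_209724_lc.FewSolutions
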