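import Mathlib
import Pool.Agent.TH813.CurveD

/-!
# Solutions of `P(z, e^z) = 0` in a rational space

The axiom (SEAC) for one variable asks for solutions `z` of `P(z, e^z) = 0` which are transcendental
over a given finitely generated field. Mantova (with Zannier) deduced it from (SC), by proving that
the equation has only finitely many solutions in a finite-dimensional `ℚ`-space. The theorem gives
an explicit bound for the number of these solutions. It depends only on the dimension of the space
and on the degrees of `P`, and it holds for every field of coefficients, for all solutions of the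
equations `P(z, c e^z) = 0` together, where `c` runs through the algebraic factors.

The proof. The logarithmic derivative of `e^z` with respect to a solution `z` is an algebraic
function of `z` with an equation of degree at most `b` and height at most `2ab` (a resultant), so
the solutions are rational points of a system of polynomial equations on the space, one for every
derivation of `ℂ` over `F`. If `τ` is a rational vector tangent to it at a solution, then the
logarithmic derivative of `e^τ` is exact, so `e^τ` is algebraic over `F` (Rosenlicht), and then
`τ = 0`, since otherwise the logarithmic derivative of `e^z` with respect to `z` would be algebraic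
over `F`.
-/

set_option autoImplicit false

open Module

namespace Pool.Agent.Results.MP_209724_lc.PolynomialExponential

open Pool.Agent.TH813 in
/-- **Main result.** Let `F` be a subfield of `ℂ`, `V` a `ℚ`-space of complex numbers of finite
dimension `r`, and let `P ≠ 0` be a polynomial in two variables over `F`, of degree at most `a` in
the first and at most `b` in the second one.

(1) There are at most `binom((2a + 1) b r, r)` numbers `z` in `V` which are transcendental over the
field generated by `F` and all `u` in `V` with `e^u` algebraic over `F`, such that
`P(z, c e^z) = 0` for some nonzero `c` algebraic over `F` (for instance `c = 1`).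

(2) If `e^u` is not algebraic over `F` for all nonzero `u` in `V`, then there are at most
`binom((2a + 1) b r, r)` nonzero `z` in `V` such that `P(z, Y) ≠ 0` and `P(z, c e^z) = 0` for some
nonzero `c` algebraic over `F`. -/
theorem result (F : IntermediateField ℚ ℂ) (V : Submodule ℚ ℂ) (hfd : FiniteDimensional ℚ V)
    (P : Polynomial (Polynomial F)) (hP : P ≠ 0)
    (a b : ℕ) (ha : ∀ i, (P.coeff i).natDegree ≤ a) (hb : P.natDegree ≤ b) :
    {z : ℂ | z ∈ V ∧ ¬ IsAlgebraic (F ⊔ IntermediateField.adjoin ℚ
        {u : ℂ | u ∈ V ∧ IsAlgebraic F (Complex.exp u)} : IntermediateField ℚ ℂ) z ∧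
      ∃ c : ℂ, c ≠ 0 ∧ IsAlgebraic F c ∧
        Polynomial.aevalAeval z (c * Complex.exp z) P = 0}.encard ≤
      (((2 * a + 1) * b * finrank ℚ V).choose (finrank ℚ V) : ℕ) ∧
    ((∀ u ∈ V, u ≠ 0 → ¬ IsAlgebraic F (Complex.exp u)) →
      {z : ℂ | z ∈ V ∧ z ≠ 0 ∧ (∃ i, Polynomial.aeval z (P.coeff i) ≠ 0) ∧
        ∃ c : ℂ, c ≠ 0 ∧ IsAlgebraic F c ∧
          Polynomial.aevalAeval z (c * Complex.exp z) P = 0}.encard ≤
        (((2 * a + 1) * b * finrank ℚ V).choose (finrank ℚ V) : ℕ)) := by
  constructor
  · refine le_trans (Set.encard_le_encard ?_)
      (CurveG.count_set (F := F) (T := none) trivial V P hP ha hb)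
    rintro z ⟨h1, h2, c, hc0, hc, h3⟩
    exact ⟨h1, h2, _, ⟨c, hc0, hc, rfl⟩, h3⟩
  · intro hV
    refine le_trans (Set.encard_le_encard ?_)
      (CurveG.count_set' (F := F) (T := none) trivial V hV P ha hb)
    rintro z ⟨h1, h2, h4, c, hc0, hc, h3⟩
    exact ⟨h1, h2, h4, _, ⟨c, hc0, hc, rfl⟩, h3⟩

end Pool.Agent.Results.MP_209724_lc.PolynomialExponential
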