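import Mathlib
import Pool.Agent.TH813.Uni5

/-!
# The minima of the predimension of complex exponentiation

For rational subspaces `X`, `W` of `ℂ` of finite dimension let
`δ(X, W) = trdeg ℚ(X, e^W) - dim X`.  So `δ(X) = δ(X, X)` is the predimension of `X` in the sense of
Hrushovski and Zilber, and Schanuel's conjecture says that it is never negative.  A space `A` is
called strong in a larger space `U` if `δ(A) ≤ δ(X)` for all `X` between `A` and `U`.

The theorem.  For every `r` there is a number `N` such that for all spaces `A ≤ V` with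
`dim V ≤ r` there are at most `N` spaces `W` between `A` and `V`, with `δ(W) < δ(A)`, which compute
all minima of the predimension: for every `U` between `A` and `V`, the minimum of `δ(X)` for
`A ≤ X ≤ U` is the minimum of `δ(A)` and the numbers `δ(U ∩ W, W)`.  In particular `A` is strong in
`U` if and only if `δ(A) ≤ δ(U ∩ W, W)` for these `W`.
-/

set_option autoImplicit false

namespace Pool.Agent.Results.MP_209724_lc.PredimensionMinima

/-- The transcendence degree over `ℚ` of the field generated by the set `S`. -/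
noncomputable def trd (S : Set ℂ) : Cardinal :=
  Algebra.trdeg ℚ (IntermediateField.adjoin ℚ S)

/-- `δ(X, W) = trdeg ℚ(X, e^W) - dim X`, for spaces of finite dimension -/
noncomputable def δ (X W : Submodule ℚ ℂ) : ℤ :=
  (Cardinal.toNat (trd ((X : Set ℂ) ∪ Complex.exp '' (W : Set ℂ))) : ℤ) -
    (Module.finrank ℚ X : ℤ)

/-- the transcendence degree in the definition of `δ` is finite -/
theorem trd_finite (X W : Submodule ℚ ℂ) [FiniteDimensional ℚ X] [FiniteDimensional ℚ W] :
    trd ((X : Set ℂ) ∪ Complex.exp '' (W : Set ℂ)) =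
      (Cardinal.toNat (trd ((X : Set ℂ) ∪ Complex.exp '' (W : Set ℂ))) : ℕ) :=
  Pool.Agent.TH813.Uni.tr_cast X W

/-- **Main result.** -/
theorem result (r : ℕ) : ∃ N : ℕ, ∀ A V : Submodule ℚ ℂ, FiniteDimensional ℚ V →
    Module.finrank ℚ V ≤ r → A ≤ V →
    ∃ T : Finset (Submodule ℚ ℂ), T.card ≤ N ∧
      (∀ W ∈ T, A ≤ W ∧ W ≤ V ∧ δ W W < δ A A) ∧
      ∀ U : Submodule ℚ ℂ, A ≤ U → U ≤ V → ∀ d : ℤ, d < δ A A →
        ((∃ X, A ≤ X ∧ X ≤ U ∧ δ X X ≤ d) ↔ ∃ W ∈ T, δ (U ⊓ W) W ≤ d) :=
  Pool.Agent.TH813.Uni.rel r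

end Pool.Agent.Results.MP_209724_lc.PredimensionMinima
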