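import Pool.Agent.W996.EC.Final

/-! # Exponential-algebraic closedness for varieties lying over curves in the torus

Zilber's conjecture says that the complex exponential field is the pseudo-exponential field of
cardinality `2^ℵ₀`.  Besides Schanuel's conjecture its content is the strong
exponential-algebraic closedness axiom, whose existence part says that every free rotund
irreducible `V ⊆ ℂ^n × (ℂ^*)^n` contains a point `(z, exp z)`.

We prove this existence part unconditionally for all `n` and all free irreducible `V` of
dimension at least `n` (rotundity for the identity matrix; no other matrix is needed) whose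
projection to the torus `(ℂ^*)^n` has dimension at most one.  For `n = 1` and for dominant
projection to `ℂ^n` this was known; the new varieties are the products `W × C` of an irreducible
hypersurface `W ⊆ ℂ^n` with a curve `C ⊆ (ℂ^*)^n`, `n ≥ 3`.

Moreover, the exponential points are Zariski dense in the projection of `V` to the torus. -/

set_option autoImplicit false

namespace Pool.Agent.Results.MP_209724_lc.TorusCurves

open MvPolynomial

/-- `Sum.inl j` are the additive coordinates, `Sum.inr j` the multiplicative ones. -/
theorem result :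
    ∀ (n : ℕ) (P : Ideal (MvPolynomial (Fin n ⊕ Fin n) ℂ)) (V : Set (Fin n ⊕ Fin n → ℂ)),
      -- `V` is the irreducible subvariety of `ℂ^n × (ℂ^*)^n` defined by the prime ideal `P`
      P.IsPrime →
      V = {p | (∀ f ∈ P, eval p f = 0) ∧ ∀ j : Fin n, p (Sum.inr j) ≠ 0} →
      -- `V` is additively free
      (∀ m : Fin n → ℤ, m ≠ 0 → ∀ c : ℂ, ∃ p ∈ V, (∑ j : Fin n, (m j : ℂ) * p (Sum.inl j)) ≠ c) →
      -- `V` is multiplicatively free
      (∀ m : Fin n → ℤ, m ≠ 0 → ∀ c : ℂ, ∃ p ∈ V, (∏ j : Fin n, p (Sum.inr j) ^ (m j)) ≠ c) →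
      -- `dim V ≥ n`: some `n` coordinates are algebraically independent on `V`
      (∃ J : Finset (Fin n ⊕ Fin n), n ≤ J.card ∧
        ∀ f : MvPolynomial (Fin n ⊕ Fin n) ℂ, f.vars ⊆ J → (∀ p ∈ V, eval p f = 0) → f = 0) →
      -- the projection of `V` to `(ℂ^*)^n` has dimension at most one
      (∀ i j : Fin n, ∃ f : MvPolynomial (Fin 2) ℂ, f ≠ 0 ∧
        ∀ p ∈ V, eval ![p (Sum.inr i), p (Sum.inr j)] f = 0) →
      -- then for every `H` not vanishing identically on the projection of `V` to `(ℂ^*)^n`
      ∀ H : MvPolynomial (Fin n) ℂ, (∃ p ∈ V, eval (fun j => p (Sum.inr j)) H ≠ 0) →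
      -- there is an exponential point of `V` at which `H` does not vanish
      ∃ z : Fin n → ℂ, Sum.elim z (fun i : Fin n => Complex.exp (z i)) ∈ V ∧
        eval (fun i : Fin n => Complex.exp (z i)) H ≠ 0 := by
  intro n P V hP hV hadd hmul hdim hproj H hH
  obtain ⟨z, hz, hHz⟩ :=
    Pool.Agent.W996.EC.ecV n P V hP hV hadd hmul hdim hproj H hH
  refine ⟨z, ?_, hHz⟩
  rw [hV]
  exact ⟨hz, fun j => Complex.exp_ne_zero _⟩

end Pool.Agent.Results.MP_209724_lc.TorusCurves
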